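import Pool.Agent.W500.CS.Stm2

/-!
# CQ, part RAYIDX
-/

set_option autoImplicit false

open MeasureTheory Metric Set Filter Topology

namespace Pool.Agent.W392.CQ.RayIdx

open Pool.Agent.W500.CS

theorem am_contDiff (θ : ℝ) : ContDiff ℝ 2 (Am θ) := by
  have h1 : ContDiff ℝ 2 (fun x : ℝ => (x : ℂ)) := Complex.ofRealCLM.contDiff
  exact h1.mul ((contDiff_const.mul (contDiff_const.add h1)).cexp)

theorem am_norm (θ x : ℝ) : ‖Am θ x‖ = |x| := by
  unfold Am
  rw [norm_mul, Complex.norm_real]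
  have h : Complex.I * ((θ : ℂ) + x) = ((θ + x : ℝ) : ℂ) * Complex.I := by
    push_cast; ring
  rw [h, Complex.norm_exp_ofReal_mul_I, mul_one, Real.norm_eq_abs]

theorem am_mem (θ : ℝ) {R x : ℝ} (h0 : 0 < x) (hx : x < R) : Am θ x ∈ ball (0 : ℂ) R \ {0} := by
  refine ⟨?_, ?_⟩
  · rw [mem_ball_zero_iff, am_norm, abs_of_pos h0]
    exact hx
  · intro h
    rw [mem_singleton_iff] at h
    have h1 := am_norm θ x
    rw [h, norm_zero, abs_of_pos h0] at h1
    linarith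

theorem sep_of {f g : ℝ → ℝ} {a b : ℝ} (hf : ContinuousOn f (Ioo a b))
    (hg : ContinuousOn g (Ioo a b)) (hne : ∀ t ∈ Ioo a b, f t ≠ g t) :
    (∀ t ∈ Ioo a b, f t < g t) ∨ (∀ t ∈ Ioo a b, g t < f t) := by
  by_contra hcon
  push Not at hcon
  obtain ⟨⟨x, hx, hx'⟩, ⟨y, hy, hy'⟩⟩ := hcon
  obtain ⟨z, hz, hzz⟩ := isPreconnected_Ioo.intermediate_value₂ hy hx hf hg hy' hx'
  exact hne z hz hzz

theorem main : S_RAYSEP → S_CURVE → S_EV → S_DIFC → S_RAYIDX := by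
  intro hRS hCU hEV hDI r R K U b hR hb hD
  have hne : ∀ i j, i ≠ j → ∀ s ∈ ball (0 : ℂ) R \ {0}, b i s - b j s ≠ 0 := by
    intro i j hij s hs h0
    apply hD.ne i j hij s hs
    show b i s / s ^ K = b j s / s ^ K
    rw [sub_eq_zero.mp h0]
  have h1 : ∀ᵐ θ : ℝ, ∀ i j, i ≠ j → ∀ᶠ x : ℝ in 𝓝[>] 0,
      ((b i (Am θ x) - b j (Am θ x)) / Am θ x ^ K * deriv (Am θ) x).re ≠ 0 := by
    rw [ae_all_iff]
    intro i
    rw [ae_all_iff]
    intro j
    by_cases hij : i = j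
    · exact Eventually.of_forall fun θ h => absurd hij h
    · have h2 := hRS R K (fun s => b i s - b j s) hR ((hb i).sub (hb j)) (hne i j hij)
      filter_upwards [h2] with θ hθ _
      exact hθ
  filter_upwards [h1] with θ hθ
  have h2 : ∀ᶠ x : ℝ in 𝓝[>] 0, ∀ i j, i ≠ j →
      ((b i (Am θ x) - b j (Am θ x)) / Am θ x ^ K * deriv (Am θ) x).re ≠ 0 := by
    rw [eventually_all]
    intro i
    rw [eventually_all]
    intro j
    by_cases hij : i = j
    · exact Eventually.of_forall fun x h => absurd hij h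
    · filter_upwards [hθ i j hij] with x hx _
      exact hx
  have h3 : ∃ ε : ℝ, 0 < ε ∧ ε ≤ R ∧ ∀ x ∈ Ioo 0 ε, ∀ i j, i ≠ j →
      ((b i (Am θ x) - b j (Am θ x)) / Am θ x ^ K * deriv (Am θ) x).re ≠ 0 := by
    rw [eventually_nhdsWithin_iff, Metric.eventually_nhds_iff] at h2
    obtain ⟨ε, hε, h2⟩ := h2
    refine ⟨min ε R, lt_min hε hR, min_le_right _ _, fun x hx => h2 ?_ hx.1⟩
    rw [Real.dist_eq, sub_zero, abs_of_pos hx.1]
    exact lt_of_lt_of_le hx.2 (min_le_left _ _)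
  obtain ⟨ε, hε, hεR, h3⟩ := h3
  have hmem : ∀ t ∈ Ioo 0 ε, Am θ t ∈ ball (0 : ℂ) R \ {0} := fun t ht =>
    am_mem θ ht.1 (lt_of_lt_of_le ht.2 hεR)
  have hAm := am_contDiff θ
  have hdc : Continuous (deriv (Am θ)) := hAm.continuous_deriv (by norm_num)
  set ψ : Fin r → ℝ → ℝ := fun i x => (b i (Am θ x) / Am θ x ^ K * deriv (Am θ) x).re with hψ
  have hψc : ∀ i, ContinuousOn (ψ i) (Ioo 0 ε) := by
    intro i
    apply Complex.continuous_re.comp_continuousOn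
    refine ContinuousOn.mul (ContinuousOn.div ?_ ?_ ?_) hdc.continuousOn
    · exact (hb i).continuousOn.comp hAm.continuous.continuousOn (fun t ht => (hmem t ht).1)
    · exact (hAm.continuous.pow K).continuousOn
    · intro t ht
      exact pow_ne_zero _ (hmem t ht).2
  have hψne : ∀ i j, i ≠ j → ∀ t ∈ Ioo 0 ε, ψ i t ≠ ψ j t := by
    intro i j hij t ht h
    apply h3 t ht i j hij
    rw [sub_div, sub_mul, Complex.sub_re]
    exact sub_eq_zero.mpr h
  have hSep : Sep 0 ε ψ := by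
    intro i j
    by_cases hij : i = j
    · left
      intro t _
      rw [hij]
    · right
      exact sep_of (hψc i) (hψc j) (hψne i j hij)
  have hcu := hCU r (ball 0 R \ {0}) U (fun i s => b i s / s ^ K) hD (Am θ) 0 ε
    (fun t ht => ⟨hmem t ht, hAm.contDiffAt⟩)
  obtain ⟨i, ε', hε', hε'ε, hder⟩ := hEV r ε (fun t => U (Am θ t)) ψ hε hcu.1 hψc hSep hcu.2
  refine ⟨i, ε', hε', fun x hx => ?_⟩
  have hx' : x ∈ Ioo 0 ε := ⟨hx.1, lt_of_lt_of_le hx.2 hε'ε⟩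
  refine ⟨hmem x hx', ?_⟩
  have h4 := hDI r (ball 0 R \ {0}) U (fun i s => b i s / s ^ K) hD (Am θ) x (hmem x hx')
    hAm.contDiffAt i (hder x hx) (fun j hj => hψne j i hj x hx')
  exact h4.self_of_nhds

end Pool.Agent.W392.CQ.RayIdx
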